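import Pool.Agent.MP_db5b97_nt.H31.SpecT
import Pool.Agent.MP_db5b97_nt.H19.DENS
import Pool.Agent.MP_db5b97_nt.H72.ZRC
import Pool.Agent.MP_db5b97_nt.H36.AL

/-! The sum formula and prescribed local invariants. -/

namespace Pool.Agent.MP_db5b97_nt.H22

open H85 H31 NumberField IsDedekindDomain

variable {k : Type} [Field k] [NumberField k]

theorem norm_rat_nonneg (hi : ∃ i : k, i ^ 2 = -1) (x : k) : 0 ≤ Algebra.norm ℚ x := by
  classical
  obtain ⟨i, hi⟩ := hi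
  by_cases hx : x = 0
  · simp [hx]
  have e := Algebra.norm_eq_prod_embeddings ℚ ℂ x
  let c : (k →ₐ[ℚ] ℂ) → (k →ₐ[ℚ] ℂ) := fun σ =>
    ((starRingEnd ℂ).comp σ.toRingHom).toRatAlgHom
  have hc : ∀ σ y, c σ y = starRingEnd ℂ (σ y) := fun _ _ => rfl
  have hne : ∀ σ : k →ₐ[ℚ] ℂ, σ x ≠ 0 := fun σ => by simpa using hx
  have h1 : ∏ σ : k →ₐ[ℚ] ℂ, (σ x / (‖σ x‖ : ℂ)) = 1 := by
    refine Finset.prod_involution (fun σ _ => c σ) (fun σ _ => ?_) (fun σ _ _ h => ?_)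
      (fun _ _ => Finset.mem_univ _) (fun σ _ => ?_)
    · have h0 : (‖σ x‖ : ℂ) ≠ 0 := by simpa using hne σ
      rw [hc, Complex.norm_conj, div_mul_div_comm, Complex.mul_conj, Complex.normSq_eq_norm_sq]
      push_cast
      field_simp
    · have h2 : starRingEnd ℂ (σ i) = σ i := by rw [← hc, h]
      have h3 : σ i ^ 2 = -1 := by rw [← map_pow, hi]; simp
      have h4 : ((σ i).re : ℂ) = σ i := Complex.conj_eq_iff_re.1 h2
      rw [← h4] at h3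
      have h5 : (σ i).re ^ 2 = -1 := by exact_mod_cast h3
      nlinarith [sq_nonneg (σ i).re]
    · ext y
      rw [hc, hc, Complex.conj_conj]
  have h2 : ∏ σ : k →ₐ[ℚ] ℂ, σ x = ((∏ σ : k →ₐ[ℚ] ℂ, ‖σ x‖ : ℝ) : ℂ) := by
    rw [Finset.prod_div_distrib, div_eq_one_iff_eq
      (Finset.prod_ne_zero_iff.2 fun σ _ => by simpa using hne σ)] at h1
    rw [h1]
    push_cast
    rfl
  rw [h2] at e
  have h3 : ((Algebra.norm ℚ x : ℚ) : ℝ) = ∏ σ : k →ₐ[ℚ] ℂ, ‖σ x‖ := by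
    have : (((Algebra.norm ℚ x : ℚ) : ℝ) : ℂ) = ((∏ σ : k →ₐ[ℚ] ℂ, ‖σ x‖ : ℝ) : ℂ) := by
      rw [← e]; simp
    exact_mod_cast this
  have h4 : (0 : ℝ) ≤ ((Algebra.norm ℚ x : ℚ) : ℝ) :=
    h3 ▸ Finset.prod_nonneg fun _ _ => norm_nonneg _
  exact_mod_cast h4

theorem norm_int_nonneg (hi : ∃ i : k, i ^ 2 = -1) (a : 𝓞 k) : 0 ≤ Algebra.norm ℤ a := by
  have h := norm_rat_nonneg hi (a : k)
  rw [← Algebra.coe_norm_int] at h
  exact_mod_cast h

theorem norm_congr (q : ℕ) (s c : 𝓞 k) :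
    ((Algebra.norm ℤ (s + q * c) : ℤ) : ZMod q) = ((Algebra.norm ℤ s : ℤ) : ZMod q) := by
  classical
  let b := RingOfIntegers.basis k
  let f : 𝓞 k →+* Matrix _ _ (ZMod q) :=
    (Int.castRingHom (ZMod q)).mapMatrix.comp (Algebra.leftMulMatrix b).toRingHom
  have h : ∀ a : 𝓞 k, ((Algebra.norm ℤ a : ℤ) : ZMod q) = (f a).det := fun a => by
    rw [Algebra.norm_eq_matrix_det b]
    exact (Int.castRingHom (ZMod q)).map_det _
  have h0 : f (q : 𝓞 k) = 0 := by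
    rw [map_natCast]
    ext i j
    simp [Matrix.natCast_apply]
  rw [h, h, map_add, map_mul, h0, zero_mul, add_zero]

theorem absNorm_span (hi : ∃ i : k, i ^ 2 = -1) (q : ℕ) (a : 𝓞 k) :
    (Ideal.absNorm (Ideal.span {a}) : ZMod q) = ((Algebra.norm ℤ a : ℤ) : ZMod q) := by
  rw [Ideal.absNorm_span_singleton, ← Int.cast_natCast, Int.natAbs_of_nonneg (norm_int_nonneg hi a)]

theorem absNorm_eq {q : ℕ} (hq : q.Prime) (ψ : Pr k q → ℕ) (u : (ZMod q)ˣ)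
    (hψ : ∀ w, (Ideal.absNorm w.1.asIdeal : ZMod q) = (u : ZMod q) ^ ψ w) (I : Ideal (𝓞 k))
    (hI : (Ideal.absNorm I : ZMod q) ≠ 0) :
    (Ideal.absNorm I : ZMod q) = ((u ^ Ps ψ (dI q I) : (ZMod q)ˣ) : ZMod q) := by
  induction I using UniqueFactorizationMonoid.induction_on_prime with
  | h₁ => exact absurd (by simp) hI
  | h₂ I h => rw [Ideal.isUnit_iff.1 h, dI_top]; simp
  | h₃ J P hJ hP ih =>
    rw [map_mul, Nat.cast_mul] at hI
    have hP0 : P ≠ ⊥ := hP.ne_zero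
    let w : Sp k := ⟨P, Ideal.isPrime_of_prime hP, hP0⟩
    have hw : (q : 𝓞 k) ∉ w.asIdeal := fun h => left_ne_zero_of_mul hI <| by
      have h1 : Ideal.absNorm P ∣ Ideal.absNorm (Ideal.span {(q : 𝓞 k)}) :=
        Ideal.absNorm_dvd_absNorm_of_le ((Ideal.span_singleton_le_iff_mem _).2 h)
      rw [Ideal.absNorm_span_natCast] at h1
      obtain ⟨j, -, hj⟩ := (Nat.dvd_prime_pow hq).1 h1
      rcases j with _ | j
      · exact absurd (Ideal.absNorm_eq_one_iff.1 (by simpa using hj)) w.isPrime.ne_top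
      · rw [hj]; simp [pow_succ]
    have e := dI_pr (l := q) ⟨w, hw⟩
    rw [map_mul, Nat.cast_mul, dI_mul hP0 hJ, map_add, zpow_add, Units.val_mul,
      ← ih (right_ne_zero_of_mul hI), show dI q P = _ from e, Ps_single, mul_one, zpow_natCast,
      Units.val_pow_eq_pow_val, ← hψ ⟨w, hw⟩]

theorem rowHA1 (hU : RowU1) : RowHA1 := by
  intro p q R g0 k _ _ ψ hq hi hg hp hψ x hx
  have := Fact.mk hq
  have hg0 : IsUnit (g0 : ZMod q) :=
    (orderOf_pos_iff.1 (hg ▸ pow_pos (Nat.pos_of_ne_zero hp) R)).isUnit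
  obtain ⟨u, hu⟩ := hg0
  have ho : orderOf u = p ^ R := by rw [← hg, ← hu, orderOf_units]
  obtain ⟨t, ht⟩ := hU.ray k q 1 hq x hx
  obtain ⟨z, ⟨s, hs, hz⟩, e⟩ := (mem_Ray_iff hq.ne_zero le_rfl).1 ht
  have hs0 : (s : ZMod q) ≠ 0 := ((ZMod.isUnit_iff_coprime s q).2 hs).ne_zero
  have hs1 : s ≠ 0 := fun h => hs0 (by simp [h])
  have hs2 : (s : 𝓞 k) ≠ 0 := by exact_mod_cast hs1
  have hs3 : (s : k) ≠ 0 := by exact_mod_cast hs1
  let c : 𝓞 k := ⟨_, hz⟩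
  have ea : (((s : 𝓞 k) + q * c : 𝓞 k) : k) = s * (q ^ t • x).val := by
    rw [e]
    simp only [map_add, map_mul, map_natCast, c, RingOfIntegers.map_mk]
    ring
  have ha : (s : 𝓞 k) + q * c ≠ 0 := fun h => mul_ne_zero hs3 (q ^ t • x).val_ne <| by
    rw [← ea, h]; rfl
  have ey : q ^ t • x = mkI _ ha - mkI _ hs2 := Un.ext <| by
    rw [Un.val_sub, val_mkI, val_mkI, ea]
    simp only [map_natCast]
    field_simp
  have n1 : (Ideal.absNorm (Ideal.span {(s : 𝓞 k)}) : ZMod q) ≠ 0 := by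
    rw [Ideal.absNorm_span_natCast, Nat.cast_pow]
    exact pow_ne_zero _ hs0
  have n2 : (Ideal.absNorm (Ideal.span {(s : 𝓞 k) + q * c}) : ZMod q) =
      Ideal.absNorm (Ideal.span {(s : 𝓞 k)}) := by
    rw [absNorm_span hi, absNorm_span hi, norm_congr]
  have hψ' : ∀ w, (Ideal.absNorm w.1.asIdeal : ZMod q) = (u : ZMod q) ^ ψ w := fun w =>
    hu ▸ (hψ w).2
  rw [absNorm_eq hq ψ u hψ' _ (n2 ▸ n1), absNorm_eq hq ψ u hψ' _ n1, Units.val_inj,
    ← dv_mkI _ ha, ← dv_mkI _ hs2, ← mul_inv_eq_one, ← zpow_sub, ← map_sub, ← map_sub, ← ey,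
    ← orderOf_dvd_iff_zpow_eq_one, ho, map_nsmul, map_nsmul, nsmul_eq_mul] at n2
  have hco : (p ^ R).Coprime q := by
    have h1 : p ^ R ∣ q - 1 := by rw [← ho, ← ZMod.card_units q]; exact orderOf_dvd_card
    have h2 : (q - 1).Coprime q := by
      obtain ⟨m, rfl⟩ := Nat.exists_eq_add_of_le' hq.one_le
      simp
    exact h2.coprime_dvd_left h1
  exact (Nat.isCoprime_iff_coprime.2 (hco.pow_right t)).dvd_of_dvd_mul_left n2

theorem rowHA2 (hU : RowU1) (hF : RowFR) (hN : RowINERT) (h1 : RowHA1) : RowHA2 := by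
  intro p q R g0 k E Λ _ _ _ _ _ _ _ lam ζ ψ hC hψ D hD
  obtain ⟨-, -, hfr⟩ := hF p q R g0 k E Λ lam ζ hC
  obtain ⟨f1, -, -, f4, -⟩ := hfr ψ hψ
  have hq := hC.qp
  have hp := hC.pp
  have := hC.gal
  have : NeZero (p ^ R) := ⟨pow_ne_zero _ hp.ne_zero⟩
  let H : AddSubgroup (Dv k q) := (nrD E q k).range ⊔ (U1 k q).map (dv k q)
  let χ : Dv k q →+ ZMod (p ^ R) := (Int.castAddHom _).comp (Ps ψ)
  have hχ : ∀ D, χ D = 0 ↔ ((p ^ R : ℕ) : ℤ) ∣ Ps ψ D := fun D =>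
    ZMod.intCast_zmod_eq_zero_iff_dvd _ _
  have hPs : ∀ D : Dv k q, Ps ψ D = D.sum fun w n => (ψ w : ℤ) * n := fun D => rfl
  have hle : H ≤ χ.ker := by
    refine sup_le (fun D hD => (hχ D).2 ?_) ?_
    · rw [hPs]
      exact Finset.dvd_sum fun w _ => (f4 D).1 hD w
    · rintro _ ⟨x, hx, rfl⟩
      exact (hχ _).2 (h1 p q R g0 k ψ hq hC.im hC.og hp.ne_zero hψ x hx)
  have hRay : (Ray k q 1).map (dv k q) ≤ H :=
    (AddSubgroup.map_mono (hU.le k q 1 le_rfl)).trans le_sup_right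
  have hH0 : H.index ≠ 0 := fun h =>
    Ray_index_ne (F := k) hq.ne_zero 1 (Nat.eq_zero_of_zero_dvd (h ▸ AddSubgroup.index_dvd_of_le hRay))
  have hfin : Finite (Dv k q ⧸ H) := AddSubgroup.index_ne_zero_iff_finite.1 hH0
  have hsi : H.index ≤ p ^ R := by
    rw [← hC.card, IsGaloisGroup.card_eq_finrank Λ k E]
    exact H19.rowSI H72.rowZ (H72.rowRC H36.rowAL) k E q 1 (Dv k q ⧸ H) (QuotientAddGroup.mk' H)
      hq.two_le (QuotientAddGroup.mk'_surjective H)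
      (fun x hx => (QuotientAddGroup.eq_zero_iff _).2 (hRay ⟨x, hx, rfl⟩))
      (fun D => (QuotientAddGroup.eq_zero_iff _).2 (AddSubgroup.mem_sup_left ⟨D, rfl⟩))
  have hl : lam ^ p ^ R = 1 := by rw [← hC.card, pow_card_eq_one']
  obtain ⟨W, hW⟩ := hN p 0 R q E Λ Λ 1 lam hp hq.ne_zero (one_pow _) hl (by simp)
  rw [one_smul] at hW
  have hco : (ψ (W.und k)).Coprime (p ^ R) := Nat.dvd_one.1 ((f1 W 1).1 (by rwa [pow_one]))
  have hsurj : Function.Surjective χ := fun a => by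
    obtain ⟨v, hv⟩ := (ZMod.isUnit_iff_coprime _ _).2 hco
    obtain ⟨n, hn⟩ := ZMod.intCast_surjective ((v⁻¹ : (ZMod (p ^ R))ˣ) * a : ZMod (p ^ R))
    refine ⟨Finsupp.single (W.und k) n, ?_⟩
    show ((Ps ψ (Finsupp.single (W.und k) n) : ℤ) : ZMod (p ^ R)) = a
    rw [Ps_single, Int.cast_mul, Int.cast_natCast, ← hv, hn, Units.mul_inv_cancel_left]
  have hk : χ.ker.index = p ^ R := by
    rw [AddSubgroup.index_ker, AddMonoidHom.range_eq_top.2 hsurj, AddSubgroup.card_top,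
      Nat.card_zmod]
  have hr : H.relIndex χ.ker = 1 := by
    have e := AddSubgroup.relIndex_mul_index hle
    rw [hk] at e
    have h0 : 0 < p ^ R := pow_pos hp.pos R
    rcases hr : H.relIndex χ.ker with _ | _ | n
    · rw [hr] at e; omega
    · rfl
    · rw [hr] at e; nlinarith
  have hD' : D ∈ H := AddSubgroup.relIndex_eq_one.1 hr ((hχ D).2 hD)
  obtain ⟨D1, hD1, _, ⟨x, hx, rfl⟩, e⟩ := AddSubgroup.mem_sup.1 hD'
  refine ⟨x, hx, fun w => ?_⟩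
  have := (f4 D1).1 hD1 w
  rwa [← e, Finsupp.add_apply, dv_apply, add_sub_cancel_right]

end Pool.Agent.MP_db5b97_nt.H22
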